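import Pool.Agent.J4H86.AS.Semi

/-!
# Every analytic semigroup in `L¹(ℝ)` is unbounded on the half-disc
-/

set_option autoImplicit false

open MeasureTheory

namespace Pool.Agent.J4H86.NoBoundedSemigroup

/-- A map `a` from the open right half plane `H = {t | 0 < Re t}` to `L¹(ℝ)` (values off `H` play no
role) is an analytic semigroup in the convolution algebra `L¹(ℝ)`: it is holomorphic on `H`,
`a (s + t)` is the convolution of `a s` and `a t` for `s, t ∈ H`, and it is not identically zero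
on `H`. -/
def IsAnalyticSemigroup (a : ℂ → Lp ℂ 1 (volume : Measure ℝ)) : Prop :=
  DifferentiableOn ℂ a {t | 0 < t.re} ∧
  (∀ s t : ℂ, 0 < s.re → 0 < t.re →
    ∀ᵐ x : ℝ, (a (s + t) : ℝ → ℂ) x = ∫ y, (a s : ℝ → ℂ) (x - y) * (a t : ℝ → ℂ) y) ∧
  ∃ t : ℂ, 0 < t.re ∧ a t ≠ 0

/-- The half-disc. -/
def HalfDisc : Set ℂ := {t | 0 < ‖t‖ ∧ ‖t‖ ≤ 1 ∧ 0 < t.re}

/-- **Negative answer to Q1.** Every analytic semigroup in `L¹(ℝ)` is unbounded on the half-disc. -/
theorem result : ∀ a : ℂ → Lp ℂ 1 (volume : Measure ℝ), IsAnalyticSemigroup a →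
    ¬ BddAbove ((fun t => ‖a t‖) '' HalfDisc) := by
  rintro a ha ⟨M, hM⟩
  apply Pool.Agent.J4H86.AS.no_bounded_semigroup (a := a) ha (M := M)
  intro t ht1 ht2
  apply hM
  refine ⟨t, ⟨?_, ht2, ht1⟩, rfl⟩
  rw [norm_pos_iff]
  rintro rfl
  simp at ht1

end Pool.Agent.J4H86.NoBoundedSemigroup
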